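import Mathlib
import Pool.Agent.R947.RF.Final

/-!
# Residual finiteness growth depends only on the complex Mal'cev completion

The residual finiteness growths of two finitely generated torsion-free nilpotent groups with isomorphic complex Mal'cev
completions are equivalent.  The definitions used in the statement (`wordLen`, `depth`, `rfGrowth`, `Dominated`,
`GrowthEquiv`, `MalcevCompletion`, `MalcevCompletion.QLie`, `MalcevCompletion.CLie`) are those of the file
`Pool/Agent/TH91/RF/Defs.lean`.
-/

set_option autoImplicit false

namespace Pool.Agent.Results.MP_67ef3c_al.ComplexCompletion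

open Pool.Agent.TH91.RF Pool.Agent.R947.RF

/-- Let `G₁` and `G₂` be nilpotent groups with finite generating sets `S₁` and `S₂` and with rational Mal'cev
completions `c₁` and `c₂` (such completions exist exactly for the torsion-free groups among the finitely generated
nilpotent ones).  If the complexified Mal'cev Lie algebras of `G₁` and `G₂` are isomorphic as complex Lie algebras, then
the residual finiteness growths of `G₁` and `G₂` are equivalent. -/
theorem result {G₁ G₂ : Type*} [Group G₁] [Group.IsNilpotent G₁] [Group G₂] [Group.IsNilpotent G₂]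
    (S₁ : Set G₁) (S₂ : Set G₂) (hS₁ : S₁.Finite) (hS₂ : S₂.Finite)
    (hgen₁ : Subgroup.closure S₁ = ⊤) (hgen₂ : Subgroup.closure S₂ = ⊤)
    (c₁ : MalcevCompletion G₁) (c₂ : MalcevCompletion G₂)
    (hiso : Nonempty (c₁.CLie ≃ₗ⁅ℂ⁆ c₂.CLie)) :
    GrowthEquiv (rfGrowth S₁) (rfGrowth S₂) :=
  growthEquiv c₁ c₂ hS₁ hS₂ hgen₁ hgen₂ hiso.some

end Pool.Agent.Results.MP_67ef3c_al.ComplexCompletion
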